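import Pool.Agent.Q74.PD.Stm4
import Pool.Agent.H499R2.NDHarmLimit

/-!
# Project PD (helper74), job Hlq: uniform convergence of approximately harmonic functions
-/

set_option autoImplicit false

namespace Pool.Agent.Q123.PD

open Finset Filter Topology MeasureTheory
open Pool.Agent.H499R2.HL (a_pos b_pos b_lt_a a_lt_one b_lt_one net II intble II_cauchy)

variable {F : ℝ → ℝ} {L C t0 : ℝ}

/-- near the upper bound the value propagates along the steps -/
theorem prop_q {M s0 ρ0 : ℝ} (hs0 : t0 ≤ s0) (hM : ∀ s, s0 ≤ s → F s ≤ M) (hρ0 : 0 ≤ ρ0)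
    (hh : ∀ t, t0 ≤ t → |F t - (F (t - Real.log 2) + F (t + Real.log (3 / 2))) / 2| ≤ C / t ^ 2)
    (hC : ∀ t, s0 ≤ t → 2 * (C / t ^ 2) ≤ ρ0) :
    ∀ n : ℕ, ∀ ρ : ℝ, 0 ≤ ρ → ∀ t : ℝ, s0 + n ≤ t → M - ρ ≤ F t →
      ∀ i j : ℕ, i + j ≤ n → M - 2 ^ n * (ρ + ρ0) ≤ F (t + (-(i : ℝ) * Real.log 2 + j * Real.log (3 / 2))) := by
  have ha := a_pos
  have hb := b_pos
  have ha1 := a_lt_one
  intro n
  induction n with
  | zero =>
    intro ρ hρ t _ hF i j hij
    have h1 : i = 0 := by omega
    have h2 : j = 0 := by omega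
    subst h1 h2
    simp only [Nat.cast_zero, neg_zero, zero_mul, add_zero, pow_zero, one_mul]
    linarith
  | succ n ih =>
    intro ρ hρ t ht hF i j hij
    push_cast at ht
    have hn0 : (0 : ℝ) ≤ n := Nat.cast_nonneg n
    have hh1 := hh t (by linarith)
    rw [abs_le] at hh1
    have hC1 := hC t (by linarith)
    have hu1 := hM (t - Real.log 2) (by linarith)
    have hu2 := hM (t + Real.log (3 / 2)) (by linarith)
    have hv1 : M - (2 * ρ + ρ0) ≤ F (t - Real.log 2) := by linarith
    have hv2 : M - (2 * ρ + ρ0) ≤ F (t + Real.log (3 / 2)) := by linarith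
    have e0 : (2 : ℝ) ^ (n + 1) * (ρ + ρ0) = 2 ^ n * (2 * ρ + ρ0 + ρ0) := by ring
    rcases Nat.eq_zero_or_pos i with hi | hi
    · rcases Nat.eq_zero_or_pos j with hj | hj
      · subst hi hj
        simp only [Nat.cast_zero, neg_zero, zero_mul, add_zero]
        have h1 : (1 : ℝ) ≤ 2 ^ (n + 1) := one_le_pow₀ (by norm_num)
        nlinarith
      · have := ih (2 * ρ + ρ0) (by linarith) (t + Real.log (3 / 2)) (by linarith) hv2 i (j - 1) (by omega)
        rw [Nat.cast_sub (by omega)] at this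
        rw [e0]
        convert this using 2
        push_cast
        ring
    · have := ih (2 * ρ + ρ0) (by linarith) (t - Real.log 2) (by linarith) hv1 (i - 1) j (by omega)
      rw [Nat.cast_sub (by omega)] at this
      rw [e0]
      convert this using 2
      push_cast
      ring

theorem close_q (L C ε : ℝ) (hL0 : 0 < L) (_ : 0 < C) (hε : 0 < ε) : ∃ T₀ R : ℝ, 1 ≤ T₀ ∧ 0 < R ∧ ∀ t0 : ℝ, T₀ ≤ t0 →
    ∀ F : ℝ → ℝ, Measurable F → (∀ t, 0 ≤ F t) → (∀ t, F t ≤ 1) →
    (∀ t s, t0 ≤ t → 0 ≤ s → s ≤ 1 → |F (t + s) - F t| ≤ L * (s + Real.exp (-t))) →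
    (∀ t, t0 ≤ t → |F t - (F (t - Real.log 2) + F (t + Real.log (3 / 2))) / 2| ≤ C / t ^ 2) →
    ∃ M u : ℝ, (∀ t, t0 + R ≤ t → F t ≤ M) ∧ t0 ≤ u ∧ |II F u - (Real.log 2 - Real.log (3 / 2)) * M| ≤ ε := by
  have ha := a_pos
  have hb := b_pos
  have hba := b_lt_a
  have ha1 := a_lt_one
  have hb1 := b_lt_one
  -- mesh
  obtain ⟨η, hη, hη1, hηε⟩ : ∃ η : ℝ, 0 < η ∧ η ≤ 1 ∧ 2 * L * η ≤ ε / 16 := by
    refine ⟨min 1 (ε / (32 * (L + 1))), by positivity, min_le_left _ _, ?_⟩
    have h2 : min 1 (ε / (32 * (L + 1))) ≤ ε / (32 * (L + 1)) := min_le_right _ _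
    calc 2 * L * min 1 (ε / (32 * (L + 1))) ≤ 2 * (L + 1) * (ε / (32 * (L + 1))) := by
          apply mul_le_mul (by linarith) h2 (by positivity) (by positivity)
      _ = ε / 16 := by field_simp; ring
  obtain ⟨n, hn⟩ := net η hη
  set δ : ℝ := ε / (64 * 2 ^ n) with hδdef
  have h2n : (0 : ℝ) < 2 ^ n := by positivity
  have hδ : 0 < δ := by positivity
  have hδ2 : 2 ^ n * (2 * δ + δ) ≤ ε / 16 := by
    rw [hδdef]
    have e : (2 : ℝ) ^ n * (2 * (ε / (64 * 2 ^ n)) + ε / (64 * 2 ^ n)) = 3 * ε / 64 := by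
      field_simp
      ring
    rw [e]
    linarith
  obtain ⟨J, hJ⟩ := exists_nat_gt (1 / δ)
  have hJ' : 1 < J * δ := by rwa [div_lt_iff₀ hδ] at hJ
  have hJ0 : 0 < J := by
    rcases Nat.eq_zero_or_pos J with h | h
    · rw [h, Nat.cast_zero, zero_mul] at hJ'
      linarith
    · exact h
  set N : ℝ := n + 3 with hN
  have hn0 : (0 : ℝ) ≤ n := Nat.cast_nonneg n
  have hN0 : 0 < N := by positivity
  refine ⟨max 1 (max (32 * L / ε + 3) (2 * C / δ + 1)), J * N, le_max_left _ _, by positivity, ?_⟩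
  intro t0 ht0 F hFm h0 h1 hL hh
  have hT1 : 1 ≤ t0 := (le_max_left _ _).trans ht0
  have hT2 : 32 * L / ε + 3 ≤ t0 := (le_max_left _ _).trans ((le_max_right _ _).trans ht0)
  have hT3 : 2 * C / δ + 1 ≤ t0 := (le_max_right _ _).trans ((le_max_right _ _).trans ht0)
  -- the exponential term
  have hexp : ∀ t, t0 - 3 ≤ t → L * Real.exp (-t) ≤ ε / 32 := by
    intro t ht
    have ht' : 32 * L / ε ≤ t := by linarith
    have h2 : t + 1 ≤ Real.exp t := Real.add_one_le_exp t
    have ht0 : 0 ≤ t := le_trans (by positivity) ht'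
    rw [Real.exp_neg, ← div_eq_mul_inv, div_le_iff₀ (Real.exp_pos t)]
    rw [div_le_iff₀ hε] at ht'
    nlinarith
  have hCt : ∀ t, t0 ≤ t → 2 * (C / t ^ 2) ≤ δ := by
    intro t ht
    have htp : 1 ≤ t := hT1.trans ht
    have h5 : 2 * C / δ ≤ t := by linarith
    rw [div_le_iff₀ hδ] at h5
    rw [mul_div_assoc', div_le_iff₀ (by positivity)]
    have : t ≤ t ^ 2 := by nlinarith
    nlinarith
  -- the suprema
  set Ms : ℝ → ℝ := fun s => sSup (F '' Set.Ici s) with hMs
  have hbdd : ∀ s, BddAbove (F '' Set.Ici s) := fun s => ⟨1, by rintro _ ⟨x, _, rfl⟩; exact h1 x⟩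
  have hne : ∀ s, (F '' Set.Ici s).Nonempty := fun s => ⟨F s, s, Set.self_mem_Ici, rfl⟩
  have hle : ∀ s u, s ≤ u → F u ≤ Ms s := fun s u hu => le_csSup (hbdd s) ⟨u, hu, rfl⟩
  have hMs0 : ∀ s, 0 ≤ Ms s := fun s => (h0 s).trans (hle s s le_rfl)
  have hMs1 : ∀ s, Ms s ≤ 1 := fun s => csSup_le (hne s) (by rintro _ ⟨x, _, rfl⟩; exact h1 x)
  have hlt : ∀ s, ∃ u, s ≤ u ∧ Ms s - δ < F u := by
    intro s
    obtain ⟨_, ⟨u, hu, rfl⟩, h2⟩ := exists_lt_of_lt_csSup (hne s) (show Ms s - δ < sSup (F '' Set.Ici s) by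
      have : Ms s = sSup (F '' Set.Ici s) := rfl
      linarith)
    exact ⟨u, hu, h2⟩
  -- the pigeonhole principle
  obtain ⟨i, hiJ, hi⟩ : ∃ i : ℕ, i < J ∧ Ms (t0 + i * N) - Ms (t0 + (i + 1 : ℕ) * N) ≤ δ := by
    by_contra hcon
    push Not at hcon
    have h2 : ∀ i : ℕ, i ≤ J → Ms (t0 + i * N) ≤ 1 - i * δ := by
      intro i
      induction i with
      | zero =>
        intro _
        have := hMs1 (t0 + (0 : ℕ) * N)
        simpa using this
      | succ i ih =>
        intro hi
        have h3 := ih (by omega)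
        have h4 := hcon i (by omega)
        push_cast at h4 h3 ⊢
        linarith
    have h3 := h2 J le_rfl
    have h4 := hMs0 (t0 + J * N)
    linarith
  set s0 : ℝ := t0 + i * N with hs0
  have hi0 : (0 : ℝ) ≤ i := Nat.cast_nonneg i
  have hs0t : t0 ≤ s0 := by
    have : 0 ≤ (i : ℝ) * N := by positivity
    linarith
  obtain ⟨u, hu, hFu⟩ := hlt (t0 + (i + 1 : ℕ) * N)
  have hu' : s0 + N ≤ u := by
    push_cast at hu
    linarith
  set M := Ms s0 with hM
  have hFM : ∀ s, s0 ≤ s → F s ≤ M := fun s hs => hle s0 s hs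
  have hprop := prop_q hs0t hFM hδ.le hh (fun t ht => hCt t (hs0t.trans ht)) n (2 * δ) (by linarith) u
    (by linarith) (by linarith)
  refine ⟨M, u, ?_, by linarith, ?_⟩
  · intro t ht
    refine hFM t ?_
    have h2 : (i : ℝ) ≤ J := by exact_mod_cast hiJ.le
    have h3 : (i : ℝ) * N ≤ J * N := mul_le_mul_of_nonneg_right h2 hN0.le
    linarith
  -- pointwise closeness on the window
  have hclose : ∀ w, u - Real.log 2 ≤ w → w ≤ u + Real.log (3 / 2) → |F w - M| ≤ ε / 4 := by
    intro w hw1 hw2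
    obtain ⟨i', j', hij, hd⟩ := hn (w - u) (by linarith) (by linarith)
    set q := u + (-(i' : ℝ) * (Real.log 2) + j' * (Real.log (3 / 2))) with hq
    have hqF := hprop i' j' hij
    have hd' : |w - q| ≤ η := by
      rw [hq, show w - (u + (-(i' : ℝ) * (Real.log 2) + j' * (Real.log (3 / 2)))) =
        w - u - (-(i' : ℝ) * (Real.log 2) + j' * (Real.log (3 / 2))) by ring]
      exact hd
    have hd1 := abs_le.1 hd'
    have hFwq : |F w - F q| ≤ ε / 8 := by
      rcases le_total q w with h | h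
      · have h2 := hL q (w - q) (by linarith) (by linarith) (by linarith)
        rw [show q + (w - q) = w by ring] at h2
        have h3 := hexp q (by linarith)
        have h4 : L * (w - q) ≤ L * η := mul_le_mul_of_nonneg_left (by linarith) hL0.le
        refine h2.trans ?_
        rw [mul_add]
        have : 0 ≤ L * η := by positivity
        nlinarith
      · have h2 := hL w (q - w) (by linarith) (by linarith) (by linarith)
        rw [show w + (q - w) = q by ring] at h2
        have h3 := hexp w (by linarith)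
        have h4 : L * (q - w) ≤ L * η := mul_le_mul_of_nonneg_left (by linarith) hL0.le
        rw [abs_sub_comm]
        refine h2.trans ?_
        rw [mul_add]
        have : 0 ≤ L * η := by positivity
        nlinarith
    have hup := hFM w (by linarith)
    rw [abs_le] at hFwq ⊢
    constructor <;> linarith
  have hi' := intble hFm h0 h1
  have c1 : |(∫ w in (u - (Real.log 2))..u, F w) - (Real.log 2) * M| ≤ ε / 4 * (Real.log 2) := by
    have e : (∫ w in (u - (Real.log 2))..u, F w) - (Real.log 2) * M = ∫ w in (u - (Real.log 2))..u, (F w - M) := by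
      rw [intervalIntegral.integral_sub (hi' _ _) intervalIntegrable_const, intervalIntegral.integral_const,
        smul_eq_mul]
      ring
    rw [e]
    have := intervalIntegral.norm_integral_le_of_norm_le_const (a := u - (Real.log 2)) (b := u)
      (f := fun w => F w - M) (C := ε / 4) (fun w hw => by
        rw [Set.uIoc_of_le (by linarith)] at hw
        rw [Real.norm_eq_abs]
        exact hclose w hw.1.le (by linarith [hw.2]))
    rw [Real.norm_eq_abs, show u - (u - (Real.log 2)) = (Real.log 2) by ring, abs_of_pos ha] at this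
    exact this
  have c2 : |(∫ w in u..(u + (Real.log (3 / 2))), F w) - (Real.log (3 / 2)) * M| ≤ ε / 4 * (Real.log (3 / 2)) := by
    have e : (∫ w in u..(u + (Real.log (3 / 2))), F w) - (Real.log (3 / 2)) * M =
        ∫ w in u..(u + (Real.log (3 / 2))), (F w - M) := by
      rw [intervalIntegral.integral_sub (hi' _ _) intervalIntegrable_const, intervalIntegral.integral_const,
        smul_eq_mul]
      ring
    rw [e]
    have := intervalIntegral.norm_integral_le_of_norm_le_const (a := u) (b := u + (Real.log (3 / 2)))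
      (f := fun w => F w - M) (C := ε / 4) (fun w hw => by
        rw [Set.uIoc_of_le (by linarith)] at hw
        rw [Real.norm_eq_abs]
        exact hclose w (by linarith [hw.1]) hw.2)
    rw [Real.norm_eq_abs, show u + (Real.log (3 / 2)) - u = (Real.log (3 / 2)) by ring, abs_of_pos hb] at this
    exact this
  unfold II
  rw [show (∫ w in (u - (Real.log 2))..u, F w) - (∫ w in u..(u + (Real.log (3 / 2))), F w) -
      ((Real.log 2) - (Real.log (3 / 2))) * M
    = ((∫ w in (u - (Real.log 2))..u, F w) - (Real.log 2) * M) -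
      ((∫ w in u..(u + (Real.log (3 / 2))), F w) - (Real.log (3 / 2)) * M) by ring]
  refine (abs_sub _ _).trans ?_
  nlinarith

theorem hlq : Pool.Agent.Q74.PD.S_Hlq := by
  intro L C η hL0 hC0 hη
  have hba := b_lt_a
  set κ : ℝ := Real.log 2 - Real.log (3 / 2) with hκ
  have hκ0 : 0 < κ := by linarith
  obtain ⟨T₀, R, hT, hR, hmain⟩ := close_q L C (κ * η / 4) hL0 hC0 (by positivity)
  refine ⟨max T₀ (8 * C / (κ * η)), R, hT.trans (le_max_left _ _), hR, ?_⟩
  intro t0 ht0 F hFm h0 h1 hL hh t t' ht ht'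
  have ht0' : T₀ ≤ t0 := (le_max_left _ _).trans ht0
  have ht1 : 8 * C / (κ * η) ≤ t0 := (le_max_right _ _).trans ht0
  have ht0p : 0 < t0 := by linarith
  have hCt : 4 * C / t0 ≤ κ * η / 2 := by
    rw [div_le_iff₀ ht0p]
    rw [div_le_iff₀ (by positivity)] at ht1
    linarith
  obtain ⟨M, u, hM, hu, hII⟩ := hmain t0 ht0' F hFm h0 h1 hL hh
  obtain ⟨M', u', hM', hu', hII'⟩ := hmain t0 ht0' (fun t => 1 - F t) (measurable_const.sub hFm)
    (fun t => by linarith [h1 t]) (fun t => by linarith [h0 t])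
    (fun t s h2 h3 h4 => by
      rw [show 1 - F (t + s) - (1 - F t) = -(F (t + s) - F t) by ring, abs_neg]
      exact hL t s h2 h3 h4)
    (fun t h2 => by
      rw [show 1 - F t - (1 - F (t - (Real.log 2)) + (1 - F (t + (Real.log (3 / 2))))) / 2 =
        -(F t - (F (t - (Real.log 2)) + F (t + (Real.log (3 / 2)))) / 2) by ring, abs_neg]
      exact hh t h2)
  have hIIc : II (fun t => 1 - F t) u' = κ - II F u' := by
    unfold II
    have hi := intble hFm h0 h1
    rw [intervalIntegral.integral_sub intervalIntegrable_const (hi _ _),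
      intervalIntegral.integral_sub intervalIntegrable_const (hi _ _), intervalIntegral.integral_const,
      intervalIntegral.integral_const, smul_eq_mul, smul_eq_mul]
    ring
  rw [hIIc] at hII'
  have k1 := II_cauchy hFm h0 h1 hh hC0.le le_rfl ht0p hu
  have k2 := II_cauchy hFm h0 h1 hh hC0.le le_rfl ht0p hu'
  have k3 : 2 * C / t0 + 2 * C / t0 = 4 * C / t0 := by ring
  have hsum : M + M' - 1 ≤ η := by
    rw [abs_le] at hII hII' k1 k2
    have h5 : κ * (M + M' - 1) ≤ κ * η := by nlinarith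
    exact le_of_mul_le_mul_left h5 hκ0
  have a1 := hM t ht
  have a2 := hM t' ht'
  have a3 : 1 - F t ≤ M' := hM' t ht
  have a4 : 1 - F t' ≤ M' := hM' t' ht'
  rw [abs_le]
  constructor <;> linarith

end Pool.Agent.Q123.PD
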