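import Pool.Agent.Q74.PD.Stm10

/-! # Project PD, job Lpm: mixing in `L^p`, `p < 2` (helper123) -/

set_option autoImplicit false

namespace Pool.Agent.Q123.PD

open Finset
open Pool.Agent.Q74.PD

open Classical in
/-- pointwise dyadic decomposition -/
theorem dyad_pt {p s x : ℝ} (hp : 1 ≤ p) (hs : 1 ≤ s) (hx : 0 ≤ x) (J : ℕ) (hJ : x ≤ 2 ^ J * s) :
    (if s < x then x ^ p else 0) ≤ ∑ j ∈ range J, (2 ^ (j + 1) * s) ^ (p - 1) * (if 2 ^ j * s < x then x else 0) := by
  induction J with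
  | zero =>
    rw [pow_zero, one_mul] at hJ
    rw [if_neg (not_lt.mpr hJ)]
    simp
  | succ J ih =>
    rw [sum_range_succ]
    rcases le_or_gt x (2 ^ J * s) with h | h
    · have h1 := ih h
      have h2 : (0 : ℝ) ≤ (2 ^ (J + 1) * s) ^ (p - 1) * (if 2 ^ J * s < x then x else 0) := by
        split_ifs <;> positivity
      linarith
    · have h0 : 0 < x := lt_of_le_of_lt (by positivity) h
      have h1 : s < x := by
        have : s ≤ 2 ^ J * s := by
          have : (1 : ℝ) ≤ 2 ^ J := one_le_pow₀ (by norm_num)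
          nlinarith
        linarith
      rw [if_pos h1, if_pos h]
      have h2 : x ^ p = x ^ (p - 1) * x := by
        rw [← Real.rpow_add_one h0.ne']
        congr 1; ring
      rw [h2]
      have h3 : x ^ (p - 1) ≤ (2 ^ (J + 1) * s) ^ (p - 1) := Real.rpow_le_rpow hx hJ (by linarith)
      have h4 : x ^ (p - 1) * x ≤ (2 ^ (J + 1) * s) ^ (p - 1) * x := mul_le_mul_of_nonneg_right h3 hx
      have h5 : (0 : ℝ) ≤ ∑ j ∈ range J, (2 ^ (j + 1) * s) ^ (p - 1) * (if 2 ^ j * s < x then x else 0) := by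
        refine sum_nonneg fun j _ => ?_
        split_ifs <;> positivity
      linarith

open Classical in
/-- dyadic decomposition of the sum of the large values -/
theorem dyad {ι : Type*} (R : Finset ι) (X : ι → ℝ) (hX : ∀ b ∈ R, 0 ≤ X b) {ε K p : ℝ} (hp : 1 ≤ p) (hε : 0 < ε)
    (hpε : p - 2 + ε = -ε) (hK : 0 ≤ K)
    (h : ∀ t : ℝ, 1 ≤ t → ∑ b ∈ R, (if t < X b then X b else 0) ≤ K * t ^ (ε - 1)) (s : ℝ) (hs : 1 ≤ s) :
    ∑ b ∈ R, (if s < X b then X b ^ p else 0) ≤ K * (2 ^ (p - 1) / (1 - 2 ^ (-ε))) * s ^ (-ε) := by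
  obtain ⟨J, hJ⟩ := pow_unbounded_of_one_lt (∑ b ∈ R, X b) (one_lt_two (α := ℝ))
  have hJ' : ∀ b ∈ R, X b ≤ 2 ^ J * s := by
    intro b hb
    have h1 : X b ≤ ∑ b ∈ R, X b := single_le_sum hX hb
    have h2 : (0 : ℝ) < 2 ^ J := by positivity
    nlinarith
  have hs0 : 0 < s := by linarith
  have hr0 : (0 : ℝ) < 2 ^ (-ε) := by positivity
  have hr1 : (2 : ℝ) ^ (-ε) < 1 := Real.rpow_lt_one_of_one_lt_of_neg (by norm_num) (by linarith)
  calc ∑ b ∈ R, (if s < X b then X b ^ p else 0)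
      ≤ ∑ b ∈ R, ∑ j ∈ range J, (2 ^ (j + 1) * s) ^ (p - 1) * (if 2 ^ j * s < X b then X b else 0) :=
        sum_le_sum fun b hb => dyad_pt hp hs (hX b hb) J (hJ' b hb)
    _ = ∑ j ∈ range J, (2 ^ (j + 1) * s) ^ (p - 1) * ∑ b ∈ R, (if 2 ^ j * s < X b then X b else 0) := by
        rw [sum_comm]
        refine sum_congr rfl fun j _ => ?_
        rw [mul_sum]
    _ ≤ ∑ j ∈ range J, (2 ^ (j + 1) * s) ^ (p - 1) * (K * (2 ^ j * s) ^ (ε - 1)) := by
        refine sum_le_sum fun j _ => mul_le_mul_of_nonneg_left (h _ ?_) (by positivity)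
        have : (1 : ℝ) ≤ 2 ^ j := one_le_pow₀ (by norm_num)
        nlinarith
    _ = ∑ j ∈ range J, K * 2 ^ (p - 1) * s ^ (-ε) * (2 ^ (-ε)) ^ j := by
        refine sum_congr rfl fun j _ => ?_
        have h2j : (0 : ℝ) < 2 ^ j := by positivity
        have e1 : (2 ^ (j + 1) * s : ℝ) ^ (p - 1) = 2 ^ (p - 1) * (2 ^ j * s) ^ (p - 1) := by
          rw [← Real.mul_rpow (by norm_num) (by positivity)]
          congr 1; ring
        have e2 : (2 ^ j * s : ℝ) ^ (p - 1) * (2 ^ j * s) ^ (ε - 1) = (2 ^ j * s) ^ (-ε) := by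
          rw [← Real.rpow_add (by positivity)]
          congr 1; linarith
        have e3 : (2 ^ j * s : ℝ) ^ (-ε) = (2 ^ (-ε)) ^ j * s ^ (-ε) := by
          rw [Real.mul_rpow (by positivity) hs0.le, ← Real.rpow_natCast, ← Real.rpow_natCast, ← Real.rpow_mul (by norm_num),
            ← Real.rpow_mul (by norm_num), mul_comm (j : ℝ)]
        calc _ = K * 2 ^ (p - 1) * ((2 ^ j * s) ^ (p - 1) * (2 ^ j * s) ^ (ε - 1)) := by rw [e1]; ring
          _ = _ := by rw [e2, e3]; ring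
    _ = K * 2 ^ (p - 1) * s ^ (-ε) * ∑ j ∈ range J, (2 ^ (-ε) : ℝ) ^ j := by rw [mul_sum]
    _ ≤ K * 2 ^ (p - 1) * s ^ (-ε) * (1 / (1 - 2 ^ (-ε))) := by
        refine mul_le_mul_of_nonneg_left ?_ (by positivity)
        have h6 := (summable_geometric_of_lt_one hr0.le hr1).sum_le_tsum (range J) (fun j _ => by positivity)
        rw [tsum_geometric_of_lt_one hr0.le hr1] at h6
        rw [one_div]
        exact h6
    _ = _ := by ring

/-- sums of periodic functions -/
theorem per_sum (f : ℕ → ℝ) (N : ℕ) (hf : ∀ b, f (b + N) = f b) (k : ℕ) :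
    ∑ b ∈ range (k * N), f b = k * ∑ b ∈ range N, f b := by
  have hk : ∀ k b : ℕ, f (k * N + b) = f b := by
    intro k b
    induction k with
    | zero => simp
    | succ k ih =>
      have : (k + 1) * N + b = (k * N + b) + N := by ring
      rw [this, hf, ih]
  induction k with
  | zero => simp
  | succ k ih =>
    rw [Nat.succ_mul, sum_range_add, ih]
    simp only [hk]
    push_cast
    ring

/-- **JOB Lpm** -/
theorem lpm (hD : S_Dlm) (hU : S_Utl) (hR : S_Rte) : S_Lpm := by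
  classical
  intro p hp1 hp2 B
  set ε : ℝ := (2 - p) / 2 with hε
  have hε0 : 0 < ε := by rw [hε]; linarith
  have hpε : p - 2 + ε = -ε := by rw [hε]; ring
  obtain ⟨C, hC, hU'⟩ := hU ε hε0
  obtain ⟨k, hk⟩ := exists_nat_ge ((B : ℝ) / ε)
  have hk' : (B : ℝ) ≤ k * ε := by rwa [div_le_iff₀ hε0] at hk
  obtain ⟨C', hC', hR'⟩ := hR (B + k)
  have hr0 : (0 : ℝ) < 2 ^ (-ε) := by positivity
  have hr1 : (2 : ℝ) ^ (-ε) < 1 := Real.rpow_lt_one_of_one_lt_of_neg (by norm_num) (by linarith)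
  have hQ : 0 < 2 ^ (p - 1) / (1 - (2 : ℝ) ^ (-ε)) := div_pos (by positivity) (by linarith)
  set Q : ℝ := 2 ^ (p - 1) / (1 - (2 : ℝ) ^ (-ε)) with hQd
  refine ⟨C' + 2 * (C * Q), by positivity, ?_⟩
  intro d hd n m hn hnm
  have hn1 : (1 : ℝ) ≤ n := by exact_mod_cast hn
  have hn0 : (0 : ℝ) < n := by linarith
  set s : ℝ := (n : ℝ) ^ k with hs
  have hs1 : 1 ≤ s := one_le_pow₀ hn1
  have nn : ∀ (m : ℕ) (a : ℤ), 0 ≤ Dn d m a := fun m a => by
    have := (hD d hd m).1 0 a
    linarith [this.1, this.2.1]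
  -- the two tails
  have T1 := dyad (range (3 ^ m)) (fun b => Dn d m b) (fun b _ => nn m b) hp1 hε0 hpε
    (show 0 ≤ C * 3 ^ m by positivity) (fun t ht => by
      have := hU' d hd m t ht
      calc _ ≤ C * t ^ (ε - 1) * 3 ^ m := this
        _ = _ := by ring) s hs1
  have T2 := dyad (range (3 ^ m)) (fun b => Dn d n b) (fun b _ => nn n b) hp1 hε0 hpε
    (show 0 ≤ C * 3 ^ m by positivity) (fun t ht => by
      have h1 := hU' d hd n t ht
      have e0 : 3 ^ m = 3 ^ (m - n) * 3 ^ n := by rw [← pow_add]; congr 1; omega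
      have e1 : ∑ b ∈ range (3 ^ m), (if t < Dn d n b then Dn d n b else 0) =
          ((3 ^ (m - n) : ℕ) : ℝ) * ∑ b ∈ range (3 ^ n), (if t < Dn d n b then Dn d n b else 0) := by
        rw [e0]
        refine per_sum (fun b : ℕ => if t < Dn d n b then Dn d n b else 0) (3 ^ n) (fun b => ?_) _
        have h2 : Dn d n ((b + 3 ^ n : ℕ) : ℤ) = Dn d n (b : ℤ) := by
          have := (hD d hd n).2.1 b 1
          rw [mul_one] at this
          rw [← this]
          push_cast
          rfl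
        simp only [h2]
      rw [e1]
      calc ((3 ^ (m - n) : ℕ) : ℝ) * ∑ b ∈ range (3 ^ n), (if t < Dn d n b then Dn d n b else 0)
          ≤ ((3 ^ (m - n) : ℕ) : ℝ) * (C * t ^ (ε - 1) * 3 ^ n) := mul_le_mul_of_nonneg_left h1 (by positivity)
        _ = C * 3 ^ m * t ^ (ε - 1) := by
          have e2 : (3 : ℝ) ^ m = 3 ^ (m - n) * 3 ^ n := by exact_mod_cast e0
          rw [e2]
          push_cast
          ring) s hs1
  have T3 := hR' d hd n m hn hnm
  -- pointwise
  have hpt : ∀ b ∈ range (3 ^ m), |Dn d m (b : ℤ) - Dn d n b| ^ p ≤ s ^ (p - 1) * |Dn d m b - Dn d n b| +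
      (if s < Dn d m b then Dn d m b ^ p else 0) + (if s < Dn d n b then Dn d n b ^ p else 0) := by
    intro b _
    set x := Dn d m b with hx
    set y := Dn d n b with hy
    have hx0 : 0 ≤ x := nn m b
    have hy0 : 0 ≤ y := nn n b
    have q1 : (0 : ℝ) ≤ if s < x then x ^ p else 0 := by split_ifs <;> positivity
    have q2 : (0 : ℝ) ≤ if s < y then y ^ p else 0 := by split_ifs <;> positivity
    have q3 : 0 ≤ s ^ (p - 1) * |x - y| := by positivity
    rcases le_or_gt |x - y| s with h | h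
    · rcases (abs_nonneg (x - y)).eq_or_lt with h0 | h0
      · rw [← h0, Real.zero_rpow (by linarith)]
        rw [← h0] at q3
        linarith
      · have e : |x - y| ^ p = |x - y| ^ (p - 1) * |x - y| := by
          rw [← Real.rpow_add_one h0.ne']
          congr 1; ring
        have h1 : |x - y| ^ (p - 1) ≤ s ^ (p - 1) := Real.rpow_le_rpow h0.le h (by linarith)
        have h2 := mul_le_mul_of_nonneg_right h1 h0.le
        rw [e]
        linarith
    · rcases le_total x y with hxy | hxy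
      · have h1 : |x - y| ≤ y := by
          rw [abs_sub_comm, abs_of_nonneg (by linarith)]
          linarith
        have h2 : s < y := by linarith
        have h3 : |x - y| ^ p ≤ y ^ p := Real.rpow_le_rpow (abs_nonneg _) h1 (by linarith)
        rw [if_pos h2]
        linarith
      · have h1 : |x - y| ≤ x := by
          rw [abs_of_nonneg (by linarith)]
          linarith
        have h2 : s < x := by linarith
        have h3 : |x - y| ^ p ≤ x ^ p := Real.rpow_le_rpow (abs_nonneg _) h1 (by linarith)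
        rw [if_pos h2]
        linarith
  have hsum := sum_le_sum hpt
  rw [sum_add_distrib, sum_add_distrib, ← mul_sum] at hsum
  -- powers of `s`
  have s1 : s ^ (p - 1) ≤ (n : ℝ) ^ k := by
    have : s ^ (p - 1) ≤ s ^ (1 : ℝ) := Real.rpow_le_rpow_of_exponent_le hs1 (by linarith)
    rwa [Real.rpow_one] at this
  have s2 : s ^ (-ε) ≤ 1 / (n : ℝ) ^ B := by
    have e1 : s ^ (-ε) = (n : ℝ) ^ (-(k * ε)) := by
      rw [hs, ← Real.rpow_natCast, ← Real.rpow_mul hn0.le]
      congr 1; ring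
    have e2 : 1 / (n : ℝ) ^ B = (n : ℝ) ^ (-(B : ℝ)) := by
      rw [Real.rpow_neg hn0.le, Real.rpow_natCast, one_div]
    rw [e1, e2]
    exact Real.rpow_le_rpow_of_exponent_le hn1 (by linarith)
  have t1 : s ^ (p - 1) * ∑ b ∈ range (3 ^ m), |Dn d m b - Dn d n b| ≤ C' / (n : ℝ) ^ B * 3 ^ m := by
    have hsn : 0 ≤ ∑ b ∈ range (3 ^ m), |Dn d m (b : ℤ) - Dn d n b| := sum_nonneg fun _ _ => abs_nonneg _
    calc s ^ (p - 1) * ∑ b ∈ range (3 ^ m), |Dn d m b - Dn d n b|
        ≤ (n : ℝ) ^ k * (C' / (n : ℝ) ^ (B + k) * 3 ^ m) := mul_le_mul s1 T3 hsn (by positivity)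
      _ = C' / (n : ℝ) ^ B * 3 ^ m := by
        rw [pow_add]
        field_simp
  have t2 : C * 3 ^ m * Q * s ^ (-ε) ≤ C * Q * (1 / (n : ℝ) ^ B) * 3 ^ m := by
    calc C * 3 ^ m * Q * s ^ (-ε) ≤ C * 3 ^ m * Q * (1 / (n : ℝ) ^ B) := mul_le_mul_of_nonneg_left s2 (by positivity)
      _ = _ := by ring
  have hfin : C' / (n : ℝ) ^ B * 3 ^ m + C * Q * (1 / (n : ℝ) ^ B) * 3 ^ m + C * Q * (1 / (n : ℝ) ^ B) * 3 ^ m =
      (C' + 2 * (C * Q)) / (n : ℝ) ^ B * 3 ^ m := by ring
  linarith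

end Pool.Agent.Q123.PD
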