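import Pool.Agent.Q123.PD.Lpm

/-! # Project PD, job Mou: upper bound for the moments (helper123) -/

set_option autoImplicit false

namespace Pool.Agent.Q123.PD

open Finset Filter Topology
open Pool.Agent.H320R2.PD
open Pool.Agent.Q74.PD

/-- initial parts of valid words are valid -/
theorem pre_valid (d : ℤ) (b : ℤ) {cap n i : ℕ} {w : List ℕ} (hw : w ∈ FW cap n) (hi : i ≤ n)
    (hv : (3 : ℤ) ^ n ∣ 2 ^ w.sum * b - d * Wo w) :
    w.take i ∈ FW cap i ∧ (3 : ℤ) ^ i ∣ 2 ^ (w.take i).sum * b - d * Wo (w.take i) := by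
  obtain ⟨hlen, hlet⟩ := mem_FW.1 hw
  have hul : (w.take i).length = i := by rw [List.length_take]; omega
  refine ⟨mem_FW.2 ⟨hul, fun e he => hlet e (List.mem_of_mem_take he)⟩, ?_⟩
  have e1 : w = w.take i ++ w.drop i := (List.take_append_drop i w).symm
  generalize hu : w.take i = u at *
  generalize hvv : w.drop i = v at *
  rw [e1, Wo_append, List.sum_append, hul] at hv
  have h1 : (3 : ℤ) ^ i ∣ 2 ^ (u.sum + v.sum) * b - d * ((2 ^ v.sum * Wo u + 3 ^ i * Wo v : ℕ) : ℤ) :=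
    (pow_dvd_pow 3 hi).trans hv
  have h2 : (2 : ℤ) ^ (u.sum + v.sum) * b - d * ((2 ^ v.sum * Wo u + 3 ^ i * Wo v : ℕ) : ℤ) =
      2 ^ v.sum * (2 ^ u.sum * b - d * Wo u) - 3 ^ i * (d * Wo v) := by
    push_cast
    ring
  rw [h2] at h1
  have h3 : (3 : ℤ) ^ i ∣ 2 ^ v.sum * (2 ^ u.sum * b - d * Wo u) := by
    have := dvd_add h1 (Dvd.intro (d * (Wo v : ℤ)) rfl)
    rwa [sub_add_cancel] at this
  have hcop : IsCoprime ((3 : ℤ) ^ i) ((2 : ℤ) ^ v.sum) := by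
    apply IsCoprime.pow
    rw [Int.isCoprime_iff_gcd_eq_one]
    rfl
  exact hcop.dvd_of_dvd_mul_left h3

open Classical in
/-- every word of length `i` is valid at `3^(n-i)` of the `b < 3^n` -/
theorem count_valid (d : ℤ) {n i : ℕ} (hi : i ≤ n) (u : List ℕ) (c : ℝ) :
    ∑ b ∈ range (3 ^ n), (if (3 : ℤ) ^ i ∣ 2 ^ u.sum * (b : ℤ) - d * Wo u then c else 0) = 3 ^ (n - i) * c := by
  have e0 : 3 ^ n = 3 ^ (n - i) * 3 ^ i := by rw [← pow_add]; congr 1; omega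
  rw [e0, per_sum (fun b : ℕ => if (3 : ℤ) ^ i ∣ 2 ^ u.sum * (b : ℤ) - d * Wo u then c else 0) (3 ^ i)]
  · rw [← sum_filter, sum_const, unique_class i u.sum (d * Wo u), one_smul]
    push_cast
    ring
  · intro b
    have e1 : (2 : ℤ) ^ u.sum * ((b + 3 ^ i : ℕ) : ℤ) - d * Wo u = (2 ^ u.sum * (b : ℤ) - d * Wo u) + 3 ^ i * 2 ^ u.sum := by
      push_cast
      ring
    have e2 : ((3 : ℤ) ^ i ∣ 2 ^ u.sum * ((b + 3 ^ i : ℕ) : ℤ) - d * Wo u) ↔ (3 : ℤ) ^ i ∣ 2 ^ u.sum * (b : ℤ) - d * Wo u := by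
      rw [e1]
      exact dvd_add_left (Dvd.intro _ rfl)
    simp only [e2]

open Classical in
/-- the quantity `S_b` -/
noncomputable def Sb (d : ℤ) (cap n : ℕ) (p : ℝ) (b : ℤ) : ℝ :=
  1 + ∑ i ∈ Icc 1 n, ∑ u ∈ FW cap i,
    (if (3 : ℤ) ^ i ∣ 2 ^ u.sum * b - d * Wo u then ((3 : ℝ) ^ i / 2 ^ u.sum) ^ p else 0)

theorem Dc_le (hS : S_Sup) (d : ℤ) (hd : IsCoprime d 3) {p : ℝ} (hp : 1 ≤ p) (cap n : ℕ) (hn : 1 ≤ n) (b : ℤ) :
    Dc d cap n b ^ p ≤ (6 * (n : ℝ) ^ 3) ^ p * Sb d cap n p b := by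
  classical
  have hp0 : 0 < p := by linarith
  have hterm : ∀ (i : ℕ) (u : List ℕ),
      (0 : ℝ) ≤ if (3 : ℤ) ^ i ∣ 2 ^ u.sum * b - d * Wo u then ((3 : ℝ) ^ i / 2 ^ u.sum) ^ p else 0 := by
    intro i u
    split_ifs <;> positivity
  have hS1 : 1 ≤ Sb d cap n p b := by
    unfold Sb
    have : (0 : ℝ) ≤ ∑ i ∈ Icc 1 n, ∑ u ∈ FW cap i,
        (if (3 : ℤ) ^ i ∣ 2 ^ u.sum * b - d * Wo u then ((3 : ℝ) ^ i / 2 ^ u.sum) ^ p else 0) :=
      sum_nonneg fun i _ => sum_nonneg fun u _ => hterm i u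
    linarith
  set L : ℝ := Sb d cap n p b ^ (1 / p) with hL
  have hL1 : 1 ≤ L := Real.one_le_rpow hS1 (by positivity)
  have hLp : L ^ p = Sb d cap n p b := by
    rw [hL, ← Real.rpow_mul (by linarith), one_div_mul_cancel hp0.ne', Real.rpow_one]
  have hcond : ∀ w ∈ FW cap n, (3 : ℤ) ^ n ∣ 2 ^ w.sum * b - d * Wo w →
      ∀ i ∈ Icc 1 n, (3 : ℝ) ^ i ≤ L * 2 ^ (w.take i).sum := by
    intro w hw hv i hi
    have hi' := mem_Icc.1 hi
    obtain ⟨h1, h2⟩ := pre_valid d b hw hi'.2 hv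
    have h3 : ((3 : ℝ) ^ i / 2 ^ (w.take i).sum) ^ p ≤ Sb d cap n p b := by
      have h4 : ((3 : ℝ) ^ i / 2 ^ (w.take i).sum) ^ p ≤ ∑ u ∈ FW cap i,
          (if (3 : ℤ) ^ i ∣ 2 ^ u.sum * b - d * Wo u then ((3 : ℝ) ^ i / 2 ^ u.sum) ^ p else 0) := by
        have := single_le_sum (f := fun u : List ℕ =>
          if (3 : ℤ) ^ i ∣ 2 ^ u.sum * b - d * Wo u then ((3 : ℝ) ^ i / 2 ^ u.sum) ^ p else 0)
          (fun u _ => hterm i u) h1
        rwa [if_pos h2] at this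
      have h5 := single_le_sum (f := fun i => ∑ u ∈ FW cap i,
          (if (3 : ℤ) ^ i ∣ 2 ^ u.sum * b - d * Wo u then ((3 : ℝ) ^ i / 2 ^ u.sum) ^ p else 0))
          (fun i _ => sum_nonneg fun u _ => hterm i u) hi
      unfold Sb
      linarith
    rw [← hLp] at h3
    have h6 : (3 : ℝ) ^ i / 2 ^ (w.take i).sum ≤ L :=
      (Real.rpow_le_rpow_iff (by positivity) (by linarith) hp0).1 h3
    rwa [div_le_iff₀ (by positivity)] at h6
  have hDc : Dc d cap n b ≤ 6 * (n : ℝ) ^ 3 * L := by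
    refine le_trans (le_of_eq ?_) (hS d hd cap n hn L hL1 b)
    unfold Dc
    refine sum_congr rfl fun w hw => ?_
    by_cases hv : (3 : ℤ) ^ n ∣ 2 ^ w.sum * b - d * Wo w
    · rw [if_pos hv, if_pos ⟨hv, hcond w hw hv⟩]
    · rw [if_neg hv, if_neg (fun h => hv h.1)]
  have hDc0 : 0 ≤ Dc d cap n b := by
    unfold Dc
    refine sum_nonneg fun w _ => ?_
    have := wwt_nonneg w
    split_ifs <;> positivity
  calc Dc d cap n b ^ p ≤ (6 * (n : ℝ) ^ 3 * L) ^ p := Real.rpow_le_rpow hDc0 hDc hp0.le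
    _ = (6 * (n : ℝ) ^ 3) ^ p * Sb d cap n p b := by
      rw [Real.mul_rpow (by positivity) (by linarith), hLp]

theorem Sb_sum (d : ℤ) {p : ℝ} (hp : 1 ≤ p) (cap n : ℕ) :
    ∑ b ∈ range (3 ^ n), Sb d cap n p b ≤ 3 ^ n * ((n + 1) * max 1 ((3 : ℝ) ^ (p - 1) / (2 ^ p - 1)) ^ n) := by
  classical
  have hp0 : 0 < p := by linarith
  have h2p : (2 : ℝ) ≤ 2 ^ p := by
    have := Real.rpow_le_rpow_of_exponent_le (x := 2) (by norm_num) hp
    rwa [Real.rpow_one] at this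
  set q : ℝ := (1 / 2) ^ p with hq
  have hq2 : q = 1 / 2 ^ p := by rw [hq, Real.div_rpow (by norm_num) (by norm_num), Real.one_rpow]
  have hq0 : 0 < q := by positivity
  have hq1 : q < 1 := by
    rw [hq2, div_lt_one (by positivity)]
    linarith
  have hqq : q / (1 - q) = 1 / (2 ^ p - 1) := by
    rw [hq2]
    have : (2 : ℝ) ^ p - 1 ≠ 0 := by linarith
    have h3 : (2 : ℝ) ^ p ≠ 0 := by positivity
    field_simp
  set R : ℝ := (3 : ℝ) ^ (p - 1) / (2 ^ p - 1) with hR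
  have hR0 : 0 ≤ R := div_nonneg (by positivity) (by linarith)
  have hM1 : (1 : ℝ) ≤ max 1 R := le_max_left _ _
  have hterm : ∀ i ∈ Icc 1 n, ∑ b ∈ range (3 ^ n), ∑ u ∈ FW cap i,
      (if (3 : ℤ) ^ i ∣ 2 ^ u.sum * (b : ℤ) - d * Wo u then ((3 : ℝ) ^ i / 2 ^ u.sum) ^ p else 0) ≤
      3 ^ n * max 1 R ^ n := by
    intro i hi
    have hi' := mem_Icc.1 hi
    rw [sum_comm]
    have e1 : ∀ u ∈ FW cap i, ∑ b ∈ range (3 ^ n),
        (if (3 : ℤ) ^ i ∣ 2 ^ u.sum * (b : ℤ) - d * Wo u then ((3 : ℝ) ^ i / 2 ^ u.sum) ^ p else 0) =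
        3 ^ (n - i) * ((3 : ℝ) ^ p) ^ i * q ^ u.sum := by
      intro u _
      rw [count_valid d hi'.2 u]
      have e2 : ((3 : ℝ) ^ i / 2 ^ u.sum) ^ p = ((3 : ℝ) ^ p) ^ i * q ^ u.sum := by
        have e3 : (3 : ℝ) ^ i / 2 ^ u.sum = 3 ^ i * (1 / 2) ^ u.sum := by
          rw [one_div, inv_pow]
          rfl
        rw [e3, Real.mul_rpow (by positivity) (by positivity), hq, ← Real.rpow_natCast, ← Real.rpow_natCast,
          ← Real.rpow_natCast, ← Real.rpow_natCast, ← Real.rpow_mul (by norm_num), ← Real.rpow_mul (by norm_num),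
          ← Real.rpow_mul (by norm_num), ← Real.rpow_mul (by norm_num), mul_comm (i : ℝ), mul_comm (u.sum : ℝ)]
      rw [e2]
      ring
    rw [sum_congr rfl e1, ← mul_sum, sum_pow]
    have h3 : (∑ e ∈ Icc 1 cap, q ^ e) ^ i ≤ (1 / (2 ^ p - 1)) ^ i := by
      rw [← hqq]
      exact pow_le_pow_left₀ (sum_nonneg fun _ _ => by positivity) (sum_Icc_pow_le cap hq0.le hq1) i
    have h33 : (3 : ℝ) ^ p = 3 * 3 ^ (p - 1) := by
      have : (3 : ℝ) ^ (p - 1 + 1) = 3 ^ (p - 1) * 3 := Real.rpow_add_one (by norm_num) _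
      rw [sub_add_cancel] at this
      rw [this]; ring
    calc 3 ^ (n - i) * ((3 : ℝ) ^ p) ^ i * (∑ e ∈ Icc 1 cap, q ^ e) ^ i
        ≤ 3 ^ (n - i) * ((3 : ℝ) ^ p) ^ i * (1 / (2 ^ p - 1)) ^ i := mul_le_mul_of_nonneg_left h3 (by positivity)
      _ = 3 ^ n * R ^ i := by
        have e4 : (3 : ℝ) ^ n = 3 ^ (n - i) * 3 ^ i := by rw [← pow_add]; congr 1; omega
        rw [e4, hR, h33, mul_pow, div_pow, div_pow, one_pow]
        ring
      _ ≤ 3 ^ n * max 1 R ^ n := by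
        refine mul_le_mul_of_nonneg_left ?_ (by positivity)
        calc R ^ i ≤ max 1 R ^ i := pow_le_pow_left₀ hR0 (le_max_right _ _) i
          _ ≤ max 1 R ^ n := pow_le_pow_right₀ hM1 hi'.2
  unfold Sb
  rw [sum_add_distrib, sum_const, card_range, nsmul_eq_mul, mul_one, sum_comm]
  have h5 := sum_le_sum hterm
  rw [sum_const, Nat.card_Icc, Nat.add_sub_cancel, nsmul_eq_mul] at h5
  have h6 : (3 : ℝ) ^ n ≤ 3 ^ n * max 1 R ^ n := le_mul_of_one_le_right (by positivity) (one_le_pow₀ hM1)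
  push_cast
  calc _ ≤ 3 ^ n * max 1 R ^ n + n * (3 ^ n * max 1 R ^ n) := add_le_add h6 h5
    _ = _ := by ring

/-- **JOB Mou** -/
theorem mou (hS : S_Sup) (hD : S_Dlm) : S_Mou := by
  intro d hd p hp n hn
  have hp0 : 0 < p := by linarith
  rw [div_le_iff₀ (by positivity)]
  have hlim : ∀ b : ℤ, Tendsto (fun cap : ℕ => Dc d cap n b) atTop (𝓝 (Dn d n b)) := by
    intro b
    have h1 : Tendsto (fun cap : ℕ => Dn d n b - 3 ^ n * n * (1 / 2 : ℝ) ^ cap) atTop (𝓝 (Dn d n b - 3 ^ n * n * 0)) :=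
      tendsto_const_nhds.sub ((tendsto_pow_atTop_nhds_zero_of_lt_one (by norm_num) (by norm_num)).const_mul _)
    rw [mul_zero, sub_zero] at h1
    refine tendsto_of_tendsto_of_tendsto_of_le_of_le h1 tendsto_const_nhds (fun cap => ?_) (fun cap => ?_)
    · have := ((hD d hd n).1 cap b).2.2.2
      show Dn d n b - 3 ^ n * n * (1 / 2) ^ cap ≤ Dc d cap n b
      linarith
    · exact ((hD d hd n).1 cap b).2.1
  have hlim2 : Tendsto (fun cap : ℕ => ∑ b ∈ range (3 ^ n), Dc d cap n (b : ℤ) ^ p) atTop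
      (𝓝 (∑ b ∈ range (3 ^ n), Dn d n (b : ℤ) ^ p)) := by
    refine tendsto_finsetSum _ fun b _ => ?_
    exact ((hlim b).rpow_const (Or.inr hp0.le))
  refine le_of_tendsto hlim2 (Eventually.of_forall fun cap => ?_)
  calc ∑ b ∈ range (3 ^ n), Dc d cap n (b : ℤ) ^ p
      ≤ ∑ b ∈ range (3 ^ n), (6 * (n : ℝ) ^ 3) ^ p * Sb d cap n p b := sum_le_sum fun b _ => Dc_le hS d hd hp cap n hn b
    _ = (6 * (n : ℝ) ^ 3) ^ p * ∑ b ∈ range (3 ^ n), Sb d cap n p b := by rw [mul_sum]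
    _ ≤ (6 * (n : ℝ) ^ 3) ^ p * (3 ^ n * ((n + 1) * max 1 ((3 : ℝ) ^ (p - 1) / (2 ^ p - 1)) ^ n)) :=
        mul_le_mul_of_nonneg_left (Sb_sum d hp cap n) (by positivity)
    _ = _ := by ring

end Pool.Agent.Q123.PD
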